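import Pool.Agent.Helper92.Ru.GoalsS

/-!
# S3: the fractional ideal version of Minkowski's theorem in dimension one
-/

set_option autoImplicit false

open NumberField IsDedekindDomain IsDedekindDomain.HeightOneSpectrum nonZeroDivisors
open scoped NNReal WithZero

namespace Pool.Agent.Helper64.Ru

open Pool.Agent.Helper92.Ru

variable {k : Type} [Field k] [NumberField k]

theorem qw_gt (w : FinitePlace k) : 1 < qw w :=
  HeightOneSpectrum.one_lt_absNorm w.maximalIdeal

theorem qw_posR (w : FinitePlace k) : (0 : ℝ) < qw w := by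
  exact_mod_cast (zero_lt_one.trans (qw_gt w))

theorem apply_eq (w : FinitePlace k) (x : k) :
    w x = WithZeroMulInt.toNNReal (HeightOneSpectrum.absNorm_ne_zero w.maximalIdeal)
      (w.maximalIdeal.valuation k x) := by
  rw [← FinitePlace.norm_embedding_eq, FinitePlace.norm_embedding']

theorem le_one_int (w : FinitePlace k) (x : 𝓞 k) : w (x : k) ≤ 1 := by
  rw [← FinitePlace.norm_embedding_eq]
  exact FinitePlace.norm_le_one (K := k) w.maximalIdeal x

theorem toNNReal_exp_neg_one (w : FinitePlace k) :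
    ((WithZeroMulInt.toNNReal (HeightOneSpectrum.absNorm_ne_zero w.maximalIdeal)
      (WithZero.exp (-1 : ℤ)) : ℝ≥0) : ℝ) = (qw w : ℝ)⁻¹ := by
  rw [WithZeroMulInt.toNNReal_neg_apply _ (WithZero.exp_ne_zero)]
  have h : (WithZero.unzero (WithZero.exp_ne_zero (a := (-1 : ℤ)))) = Multiplicative.ofAdd (-1) :=
    rfl
  rw [h, toAdd_ofAdd]
  simp [qw]

theorem le_inv_of_mem (w : FinitePlace k) {x : 𝓞 k} (hx : x ∈ w.maximalIdeal.asIdeal) :
    w (x : k) ≤ (qw w : ℝ)⁻¹ := by
  rw [apply_eq, ← toNNReal_exp_neg_one, NNReal.coe_le_coe]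
  apply (WithZeroMulInt.toNNReal_strictMono
    (HeightOneSpectrum.one_lt_absNorm_nnreal w.maximalIdeal)).monotone
  have h := (w.maximalIdeal.intValuation_le_pow_iff_mem x 1).2 (by simpa using hx)
  rw [show (x : k) = algebraMap (𝓞 k) k x from rfl, HeightOneSpectrum.valuation_of_algebraMap]
  simpa using h

/-- a uniformiser -/
theorem exists_unif (w : FinitePlace k) :
    ∃ π : 𝓞 k, π ∈ w.maximalIdeal.asIdeal ∧ w (π : k) = (qw w : ℝ)⁻¹ := by
  obtain ⟨π, hπ⟩ := w.maximalIdeal.intValuation_exists_uniformizer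
  refine ⟨π, ?_, ?_⟩
  · rw [← HeightOneSpectrum.intValuation_lt_one_iff_mem, hπ]
    exact WithZero.exp_lt_exp.2 (by norm_num : (-1 : ℤ) < 0)
  · rw [apply_eq, ← toNNReal_exp_neg_one, show (π : k) = algebraMap (𝓞 k) k π from rfl,
      HeightOneSpectrum.valuation_of_algebraMap, hπ]

/-- an element of `p_w` which is a unit at `v ≠ w` -/
theorem exists_unit (v w : FinitePlace k) (h : w ≠ v) :
    ∃ π : 𝓞 k, π ∈ w.maximalIdeal.asIdeal ∧ v (π : k) = 1 := by
  have h1 : ¬ w.maximalIdeal.asIdeal ≤ v.maximalIdeal.asIdeal := by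
    intro hle
    apply h
    rw [← FinitePlace.maximalIdeal_inj]
    apply HeightOneSpectrum.ext
    exact (w.maximalIdeal.isMaximal.eq_of_le v.maximalIdeal.isPrime.ne_top hle)
  obtain ⟨π, hπ, hn⟩ := SetLike.not_le_iff_exists.1 h1
  refine ⟨π, hπ, ?_⟩
  rw [← FinitePlace.norm_embedding_eq]
  exact (FinitePlace.norm_eq_one_iff_notMem (K := k) v.maximalIdeal π).2 hn

abbrev FI (k : Type) [Field k] [NumberField k] := FractionalIdeal (𝓞 k)⁰ k

/-- the elements of `I` have absolute value at most `c` -/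
def Bd (v : FinitePlace k) (I : FI k) (c : ℝ) : Prop := ∀ x ∈ I, v x ≤ c

theorem Bd.one (v : FinitePlace k) : Bd v (1 : FI k) 1 := by
  intro x hx
  rw [FractionalIdeal.mem_one_iff] at hx
  obtain ⟨r, rfl⟩ := hx
  exact le_one_int v r

theorem Bd.nonneg {v : FinitePlace k} {I : FI k} {c : ℝ} (h : Bd v I c) : 0 ≤ c := by
  have := h 0 (FractionalIdeal.zero_mem I)
  rwa [map_zero] at this

theorem Bd.mul {v : FinitePlace k} {I J : FI k} {c d : ℝ} (hI : Bd v I c) (hJ : Bd v J d) :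
    Bd v (I * J) (c * d) := by
  intro x hx
  refine FractionalIdeal.mul_induction_on hx ?_ ?_
  · intro i hi j hj
    rw [map_mul]
    exact mul_le_mul (hI i hi) (hJ j hj) (apply_nonneg v j) hI.nonneg
  · intro a b ha hb
    exact (FinitePlace.add_le v a b).trans (max_le ha hb)

theorem Bd.pow {v : FinitePlace k} {I : FI k} {c : ℝ} (hI : Bd v I c) (n : ℕ) :
    Bd v (I ^ n) (c ^ n) := by
  induction n with
  | zero => simpa using Bd.one v
  | succ n ih => rw [pow_succ, pow_succ]; exact ih.mul hI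

theorem Bd.prod {v : FinitePlace k} {α : Type} (s : Finset α) (I : α → FI k) (c : α → ℝ)
    (h : ∀ a ∈ s, Bd v (I a) (c a)) : Bd v (∏ a ∈ s, I a) (∏ a ∈ s, c a) := by
  classical
  induction s using Finset.induction_on with
  | empty => simpa using Bd.one v
  | insert a s ha ih =>
    rw [Finset.prod_insert ha, Finset.prod_insert ha]
    exact (h a (Finset.mem_insert_self _ _)).mul
      (ih fun b hb => h b (Finset.mem_insert_of_mem hb))

/-- the prime of `w` as an invertible fractional ideal -/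
noncomputable def PU (w : FinitePlace k) : (FI k)ˣ :=
  Units.mk0 (w.maximalIdeal.asIdeal : FI k)
    (FractionalIdeal.coeIdeal_ne_zero.2 w.maximalIdeal.ne_bot)

theorem PU_val (w : FinitePlace k) : ((PU w : (FI k)ˣ) : FI k) = (w.maximalIdeal.asIdeal : FI k) :=
  rfl

theorem Bd_PU_self (v : FinitePlace k) : Bd v (PU v : FI k) (qw v : ℝ)⁻¹ := by
  intro x hx
  rw [PU_val, FractionalIdeal.mem_coeIdeal] at hx
  obtain ⟨r, hr, rfl⟩ := hx
  exact le_inv_of_mem v hr

theorem Bd_PU_ne (v w : FinitePlace k) : Bd v (PU w : FI k) 1 := by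
  intro x hx
  rw [PU_val, FractionalIdeal.mem_coeIdeal] at hx
  obtain ⟨r, hr, rfl⟩ := hx
  exact le_one_int v r

theorem Bd_PUinv (v w : FinitePlace k) (π : 𝓞 k) (hπ : π ∈ w.maximalIdeal.asIdeal) {c : ℝ}
    (hc : 0 < c) (hv : v (π : k) = c⁻¹) : Bd v (((PU w)⁻¹ : (FI k)ˣ) : FI k) c := by
  intro x hx
  have h1 : x * (π : k) ∈ (((PU w)⁻¹ : (FI k)ˣ) : FI k) * (PU w : FI k) :=
    FractionalIdeal.mul_mem_mul hx (by
      rw [PU_val, FractionalIdeal.mem_coeIdeal]
      exact ⟨π, hπ, rfl⟩)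
  rw [Units.inv_mul] at h1
  have h2 := Bd.one v _ h1
  rw [map_mul, hv, ← div_eq_mul_inv, div_le_one hc] at h2
  exact h2

open Classical in
theorem Bd_zpow (v w : FinitePlace k) (n : ℤ) :
    Bd v (((PU w) ^ n : (FI k)ˣ) : FI k) (if w = v then (qw v : ℝ) ^ (-n) else 1) := by
  by_cases h : w = v
  · subst h
    rw [if_pos rfl]
    rcases Int.eq_nat_or_neg n with ⟨m, hm | hm⟩
    · rw [hm, zpow_natCast, Units.val_pow_eq_pow_val]
      have := (Bd_PU_self w).pow m
      rw [inv_pow] at this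
      rw [zpow_neg, zpow_natCast]
      exact this
    · rw [hm, neg_neg, zpow_natCast, zpow_neg, zpow_natCast, ← inv_pow, Units.val_pow_eq_pow_val]
      obtain ⟨π, hπ, hv⟩ := exists_unif w
      exact (Bd_PUinv w w π hπ (qw_posR w) hv).pow m
  · rw [if_neg h]
    rcases Int.eq_nat_or_neg n with ⟨m, hm | hm⟩
    · rw [hm, zpow_natCast, Units.val_pow_eq_pow_val]
      have := (Bd_PU_ne v w).pow m
      rwa [one_pow] at this
    · rw [hm, zpow_neg, zpow_natCast, ← inv_pow, Units.val_pow_eq_pow_val]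
      obtain ⟨π, hπ, hv⟩ := exists_unit v w h
      have := (Bd_PUinv v w π hπ one_pos (by rw [hv, inv_one])).pow m
      rwa [one_pow] at this

/-- `∏_w p_w ^ (-z_w)` -/
noncomputable def II (s : Finset (FinitePlace k)) (z : FinitePlace k → ℤ) : (FI k)ˣ :=
  ∏ w ∈ s, (PU w) ^ (-z w)

theorem Bd_II (s : Finset (FinitePlace k)) (z : FinitePlace k → ℤ) (hz : ∀ w ∉ s, z w = 0)
    (v : FinitePlace k) : Bd v (II s z : FI k) ((qw v : ℝ) ^ z v) := by
  classical
  have h1 := Bd.prod (v := v) s (fun w => (((PU w) ^ (-z w) : (FI k)ˣ) : FI k)) _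
    (fun w _ => Bd_zpow v w (-z w))
  have e1 : ((II s z : (FI k)ˣ) : FI k) = ∏ w ∈ s, (((PU w) ^ (-z w) : (FI k)ˣ) : FI k) := by
    unfold II
    rw [Units.coe_prod]
  have e2 : (∏ w ∈ s, (if w = v then (qw v : ℝ) ^ (- -z w) else 1)) = (qw v : ℝ) ^ z v := by
    by_cases hv : v ∈ s
    · rw [Finset.prod_eq_single_of_mem v hv]
      · rw [if_pos rfl, neg_neg]
      · intro w _ hw
        rw [if_neg hw]
    · rw [Finset.prod_eq_one]
      · rw [hz v hv, zpow_zero]
      · intro w hw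
        rw [if_neg]
        rintro rfl
        exact hv hw
  rw [e1]
  rw [e2] at h1
  exact h1

theorem absNorm_II (s : Finset (FinitePlace k)) (z : FinitePlace k → ℤ) :
    ((FractionalIdeal.absNorm (II s z : FI k) : ℚ) : ℝ) = ∏ w ∈ s, (qw w : ℝ) ^ (-z w) := by
  unfold II
  rw [Units.coe_prod, map_prod]
  push_cast
  apply Finset.prod_congr rfl
  intro w _
  rw [map_zpow₀, PU_val, FractionalIdeal.coeIdeal_absNorm]
  push_cast
  rfl

open NumberField.mixedEmbedding MeasureTheory in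
/-- S3 -/
theorem bal : Bal := by
  classical
  intro k _ _ T
  set M0 : ENNReal := volume (ZSpan.fundamentalDomain (latticeBasis k)) *
    2 ^ (Module.finrank ℝ (mixedSpace k)) with hM0d
  have hM0 : M0 ≠ ⊤ := by
    apply ENNReal.mul_ne_top
    · exact (ZSpan.fundamentalDomain_isBounded _).measure_lt_top.ne
    · exact ENNReal.pow_ne_top ENNReal.ofNat_ne_top
  have hM0r : 0 ≤ M0.toReal := ENNReal.toReal_nonneg
  have hQt : 0 < ∏ u : {w : FinitePlace k // w ∈ T}, (qw u.1 : ℝ) :=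
    Finset.prod_pos fun u _ => qw_posR u.1
  refine ⟨(M0.toReal + 1) * ∏ u : {w : FinitePlace k // w ∈ T}, (qw u.1 : ℝ), by positivity, ?_⟩
  intro z hz hzT y hy hC
  let z' : FinitePlace k → ℤ := fun w =>
    if h : w ∈ T then Int.log (qw w) (y (Sum.inr ⟨w, h⟩)) else z w
  set s : Finset (FinitePlace k) := hz.toFinset ∪ T with hs
  have hz'T : ∀ u : {w : FinitePlace k // w ∈ T}, z' u.1 = Int.log (qw u.1) (y (Sum.inr u)) := by
    intro u
    show (if h : u.1 ∈ T then Int.log (qw u.1) (y (Sum.inr ⟨u.1, h⟩)) else z u.1) = _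
    rw [dif_pos u.2]
  have hz'n : ∀ w, w ∉ T → z' w = z w := by
    intro w hw
    show (if h : w ∈ T then Int.log (qw w) (y (Sum.inr ⟨w, h⟩)) else z w) = _
    rw [dif_neg hw]
  have hz's : ∀ w ∉ s, z' w = 0 := by
    intro w hw
    rw [hs, Finset.mem_union, not_or] at hw
    rw [hz'n w hw.2]
    by_contra h
    exact hw.1 (by rw [Set.Finite.mem_toFinset]; exact h)
  let f : InfinitePlace k → ℝ≥0 := fun v => (Real.toNNReal (y (Sum.inl v))) ^ ((v.mult : ℝ)⁻¹)
  have hf : ∀ v, f v ^ v.mult = Real.toNNReal (y (Sum.inl v)) := by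
    intro v
    show ((Real.toNNReal (y (Sum.inl v))) ^ ((v.mult : ℝ)⁻¹)) ^ v.mult = _
    rw [← NNReal.rpow_natCast, ← NNReal.rpow_mul, inv_mul_cancel₀, NNReal.rpow_one]
    exact_mod_cast v.mult_pos.ne'
  -- the norm of the ideal
  set P : ℝ := ∏ w ∈ s, (qw w : ℝ) ^ z w with hP
  have hPpos : 0 < P := Finset.prod_pos fun w _ => zpow_pos (qw_posR w) _
  set Yi : ℝ := ∏ v : InfinitePlace k, y (Sum.inl v) with hYi
  set Yt : ℝ := ∏ u : {w : FinitePlace k // w ∈ T}, y (Sum.inr u) with hYt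
  set Qt : ℝ := ∏ u : {w : FinitePlace k // w ∈ T}, (qw u.1 : ℝ) with hQtd
  have hYtpos : 0 < Yt := Finset.prod_pos fun u _ => hy _
  have hfin : ∏ᶠ w : FinitePlace k, (qw w : ℝ) ^ z w = P := by
    apply finprod_eq_prod_of_mulSupport_subset
    intro w hw
    rw [Function.mem_mulSupport] at hw
    rw [hs]
    simp only [Finset.coe_union, Set.Finite.coe_toFinset, Set.mem_union, Finset.mem_coe,
      Function.mem_support]
    left
    intro h
    apply hw
    rw [h, zpow_zero]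
  rw [Fintype.prod_sum_type, hfin] at hC
  change (M0.toReal + 1) * Qt ≤ Yi * Yt * P at hC
  have ha : ∏ w ∈ s, (qw w : ℝ) ^ (-z' w) ≤ P⁻¹ * (Qt / Yt) := by
    have hTs : T ⊆ s := Finset.subset_union_right
    have e1 : P = ∏ w ∈ s \ T, (qw w : ℝ) ^ z w := by
      rw [hP, ← Finset.prod_sdiff hTs]
      rw [Finset.prod_eq_one (s := T) (fun w hw => by rw [hzT w hw, zpow_zero]), mul_one]
    rw [← Finset.prod_sdiff hTs, e1, ← Finset.prod_inv_distrib]
    have e2 : ∏ w ∈ s \ T, (qw w : ℝ) ^ (-z' w) = ∏ w ∈ s \ T, ((qw w : ℝ) ^ z w)⁻¹ := by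
      apply Finset.prod_congr rfl
      intro w hw
      rw [hz'n w (Finset.mem_sdiff.1 hw).2, zpow_neg]
    rw [e2]
    apply mul_le_mul_of_nonneg_left
    · rw [hQtd, hYt, ← Finset.prod_div_distrib, ← Finset.prod_coe_sort T]
      apply Finset.prod_le_prod
      · intro u _
        exact (zpow_pos (qw_posR u.1) _).le
      · intro u _
        rw [hz'T u, le_div_iff₀ (hy _)]
        have h1 := (Int.lt_zpow_succ_log_self (qw_gt u.1) (y (Sum.inr u)))
        have h2 : (0 : ℝ) < (qw u.1 : ℝ) ^ (-Int.log (qw u.1) (y (Sum.inr u))) :=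
          zpow_pos (qw_posR u.1) _
        calc (qw u.1 : ℝ) ^ (-Int.log (qw u.1) (y (Sum.inr u))) * y (Sum.inr u)
            ≤ (qw u.1 : ℝ) ^ (-Int.log (qw u.1) (y (Sum.inr u))) *
              (qw u.1 : ℝ) ^ (Int.log (qw u.1) (y (Sum.inr u)) + 1) :=
              mul_le_mul_of_nonneg_left h1.le h2.le
          _ = qw u.1 := by
            rw [← zpow_add₀ (qw_posR u.1).ne']
            simp
    · exact Finset.prod_nonneg fun w _ => inv_nonneg.2 (zpow_pos (qw_posR w) _).le
  have hreal : (∏ w ∈ s, (qw w : ℝ) ^ (-z' w)) * M0.toReal < Yi := by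
    have h1 : (∏ w ∈ s, (qw w : ℝ) ^ (-z' w)) * M0.toReal ≤ P⁻¹ * (Qt / Yt) * M0.toReal :=
      mul_le_mul_of_nonneg_right ha hM0r
    have h2 : P⁻¹ * (Qt / Yt) * M0.toReal < P⁻¹ * (Qt / Yt) * (M0.toReal + 1) := by
      apply mul_lt_mul_of_pos_left (by linarith)
      positivity
    have h3 : P⁻¹ * (Qt / Yt) * (M0.toReal + 1) ≤ Yi := by
      have : P⁻¹ * (Qt / Yt) * (M0.toReal + 1) = ((M0.toReal + 1) * Qt) / (Yt * P) := by
        field_simp
      rw [this, div_le_iff₀ (by positivity)]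
      calc (M0.toReal + 1) * Qt ≤ Yi * Yt * P := hC
        _ = Yi * (Yt * P) := by ring
    linarith
  have key : minkowskiBound k (II s z') < volume (convexBodyLT k f) := by
    rw [minkowskiBound, volume_fundamentalDomain_fractionalIdealLatticeBasis, mul_assoc, ← hM0d,
      absNorm_II, convexBodyLT_volume]
    have h1 : ENNReal.ofReal (∏ w ∈ s, (qw w : ℝ) ^ (-z' w)) * M0
        = ENNReal.ofReal ((∏ w ∈ s, (qw w : ℝ) ^ (-z' w)) * M0.toReal) := by
      rw [ENNReal.ofReal_mul (Finset.prod_nonneg fun w _ => (zpow_pos (qw_posR w) _).le),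
        ENNReal.ofReal_toReal hM0]
    have hYipos : 0 < Yi := Finset.prod_pos fun v _ => hy _
    have h2 : ((∏ w : InfinitePlace k, f w ^ w.mult : ℝ≥0) : ENNReal) = ENNReal.ofReal Yi := by
      rw [ENNReal.ofReal]
      congr 1
      rw [hYi, Real.toNNReal_prod_of_nonneg (fun w _ => (hy _).le)]
      exact Finset.prod_congr rfl (fun w _ => hf w)
    rw [h1, h2]
    calc ENNReal.ofReal ((∏ w ∈ s, (qw w : ℝ) ^ (-z' w)) * M0.toReal)
        < ENNReal.ofReal Yi := (ENNReal.ofReal_lt_ofReal_iff hYipos).2 hreal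
      _ ≤ (convexBodyLTFactor k : ENNReal) * ENNReal.ofReal Yi := by
        apply le_mul_of_one_le_left zero_le
        exact_mod_cast one_le_convexBodyLTFactor k
  obtain ⟨α, hαI, hα0, hαf⟩ := exists_ne_zero_mem_ideal_lt k (II s z') key
  refine ⟨α, hα0, ?_, ?_⟩
  · rintro (v | u)
    · rw [nS_inl]
      calc v α ^ v.mult ≤ (f v : ℝ) ^ v.mult :=
            pow_le_pow_left₀ (apply_nonneg v α) (hαf v).le _
        _ = y (Sum.inl v) := by
            rw [← NNReal.coe_pow, hf v, Real.coe_toNNReal _ (hy _).le]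
    · rw [nS_inr]
      have h1 := Bd_II s z' hz's u.1 α hαI
      rw [hz'T u] at h1
      exact h1.trans (Int.zpow_log_le_self (qw_gt u.1) (hy _))
  · intro w hw
    have h1 := Bd_II s z' hz's w α hαI
    rwa [hz'n w hw] at h1

end Pool.Agent.Helper64.Ru
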