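import Pool.Agent.Helper92.Ru.GoalsH

/-! H8: elimination of all but two variables in every block. -/

set_option autoImplicit false

open MvPolynomial

namespace Pool.Agent.Helper64.Ru

open Pool.Agent.Helper92.Ru

variable {k : Type} [Field k]

/-- set the variable `o` equal to zero -/
noncomputable def ev {σ : Type} [DecidableEq σ] (o : σ) : MvPolynomial σ k →ₐ[k] MvPolynomial σ k :=
  aeval (fun p => if p = o then 0 else X p)

theorem ev_monomial {σ : Type} [DecidableEq σ] (o : σ) (d : σ →₀ ℕ) (c : k) :
    ev o (monomial d c) = if d o = 0 then monomial d c else 0 := by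
  unfold ev
  rw [aeval_monomial]
  split_ifs with h
  · rw [monomial_eq]
    congr 1
    apply Finsupp.prod_congr
    intro x hx
    have hxo : x ≠ o := by
      rintro rfl
      exact (Finsupp.mem_support_iff.mp hx) h
    rw [if_neg hxo]
  · have : (d.prod fun i k_1 => (if i = o then (0 : MvPolynomial σ k) else X i) ^ k_1) = 0 := by
      unfold Finsupp.prod
      apply Finset.prod_eq_zero (i := o)
      · exact Finsupp.mem_support_iff.mpr h
      · show (if o = o then (0 : MvPolynomial σ k) else X o) ^ (d o) = 0
        rw [if_pos rfl, zero_pow h]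
    rw [this, mul_zero]

theorem coeff_ev {σ : Type} [DecidableEq σ] (o : σ) (f : MvPolynomial σ k) (e : σ →₀ ℕ) :
    coeff e (ev o f) = if e o = 0 then coeff e f else 0 := by
  induction f using MvPolynomial.induction_on' with
  | monomial d c =>
    rw [ev_monomial]
    by_cases hd : d o = 0
    · rw [if_pos hd, coeff_monomial]
      by_cases hde : d = e
      · subst hde
        simp [hd]
      · simp [hde]
    · rw [if_neg hd, coeff_monomial, coeff_zero]
      by_cases hde : d = e
      · subst hde
        simp [hd]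
      · simp [hde]
  | add p q hp hq =>
    rw [map_add, coeff_add, hp, hq, coeff_add]
    split_ifs <;> simp

theorem PsiA_ev {m : ℕ} {ι : Type} [Fintype ι] [DecidableEq ι]
    (a a' : Fin m → ι → k) (l : Fin m → ι) (o : Fin m × ι) (ho : o.2 ≠ l o.1)
    (ha' : ∀ h i, a' h i = if (h, i) = o then 0 else a h i) (f : MvPolynomial (Fin m × ι) k) :
    PsiA a' l (ev o f) = ev o (PsiA a l f) := by
  have key : (PsiA a' l).comp (ev o) = (ev o).comp (PsiA a l) := by
    apply MvPolynomial.algHom_ext
    intro p
    rw [AlgHom.comp_apply, AlgHom.comp_apply]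
    have evX : ∀ q : Fin m × ι, ev o (X q : MvPolynomial (Fin m × ι) k) =
        if q = o then 0 else X q := by
      intro q
      unfold ev
      rw [aeval_X]
    have psX : ∀ (b : Fin m → ι → k) (q : Fin m × ι), PsiA b l (X q) = if q.2 = l q.1 then
        C ((b q.1 (l q.1))⁻¹) * (X q - ∑ i ∈ Finset.univ.erase (l q.1), C (b q.1 i) * X (q.1, i))
        else X q := by
      intro b q
      unfold PsiA
      rw [aeval_X]
    have evC : ∀ c : k, ev o (C c : MvPolynomial (Fin m × ι) k) = C c := by
      intro c
      unfold ev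
      rw [← MvPolynomial.algebraMap_eq, AlgHom.commutes]
    rw [evX, psX]
    by_cases hp : p = o
    · subst hp
      rw [if_pos rfl, map_zero, if_neg ho, evX, if_pos rfl]
    · rw [if_neg hp, psX]
      by_cases hl : p.2 = l p.1
      · rw [if_pos hl, if_pos hl, map_mul, evC, map_sub, evX, if_neg hp, map_sum]
        have h1 : a' p.1 (l p.1) = a p.1 (l p.1) := by
          rw [ha', if_neg]
          rintro rfl
          exact ho rfl
        rw [h1]
        congr 2
        apply Finset.sum_congr rfl
        intro i _
        rw [map_mul, evC, evX, ha']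
        split_ifs with h2
        · simp
        · rfl
      · rw [if_neg hl, if_neg hl, evX, if_neg hp]
  exact DFunLike.congr_fun key f

theorem step {m : ℕ} {ι : Type} [Fintype ι] [DecidableEq ι] (r r' : Fin m → ℕ)
    (P : MvPolynomial (Fin m × ι) k) (a a' : Fin m → ι → k) (l : Fin m → ι) (θ : ℝ)
    (o : Fin m × ι) (ho : o.2 ≠ l o.1)
    (ha' : ∀ h i, a' h i = if (h, i) = o then 0 else a h i)
    (hP : P ≠ 0) (hM : MHr r' P) (hI : IndA r a l θ P) :
    ∃ (r'' : Fin m → ℕ) (P' : MvPolynomial (Fin m × ι) k), (∀ h, r'' h ≤ r' h) ∧ P' ≠ 0 ∧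
      MHr r'' P' ∧
      (∀ e ∈ P'.support, ∃ s : ℕ, coeff e P' = coeff (Finsupp.single o s + e) P) ∧
      (∀ e ∈ P'.support, e o = 0) ∧
      IndA r a' l θ P' := by
  classical
  obtain ⟨e0, he0, hmin⟩ := Finset.exists_min_image P.support (fun e => e o)
    (support_nonempty.mpr hP)
  set s := e0 o with hs
  set P1 := P.divMonomial (Finsupp.single o s) with hP1
  have hmod : P.modMonomial (Finsupp.single o s) = 0 := by
    ext d
    rw [coeff_zero]
    by_cases hd : Finsupp.single o s ≤ d
    · exact coeff_modMonomial_of_le _ hd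
    · rw [coeff_modMonomial_of_not_le _ hd]
      by_contra hc
      apply hd
      rw [Finsupp.single_le_iff]
      exact hmin d (mem_support_iff.mpr hc)
  have hPP : P = monomial (Finsupp.single o s) 1 * P1 := by
    have := divMonomial_add_modMonomial P (Finsupp.single o s)
    rw [hmod, add_zero] at this
    exact this.symm
  have hc1 : ∀ e, coeff e P1 = coeff (Finsupp.single o s + e) P := by
    intro e
    rw [hP1, coeff_divMonomial]
  have hsup : ∀ e ∈ (ev o P1).support, e o = 0 ∧ Finsupp.single o s + e ∈ P.support := by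
    intro e he
    rw [mem_support_iff, coeff_ev] at he
    split_ifs at he with h0
    · rw [hc1] at he
      exact ⟨h0, mem_support_iff.mpr he⟩
    · exact absurd rfl he
  refine ⟨fun h => r' h - (if h = o.1 then s else 0), ev o P1, fun h => Nat.sub_le _ _, ?_, ?_,
    ?_, ?_, ?_⟩
  · intro h0
    have h1 : coeff (e0.erase o) (ev o P1) = 0 := by rw [h0, coeff_zero]
    rw [coeff_ev, if_pos (by simp), hc1, hs, Finsupp.single_add_erase] at h1
    exact (mem_support_iff.mp he0) h1
  · intro e he h
    obtain ⟨_, h2⟩ := hsup e he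
    have h3 := hM _ h2 h
    have h4 : ∑ i, (Finsupp.single o s + e) (h, i) =
        (if h = o.1 then s else 0) + ∑ i, e (h, i) := by
      simp only [Finsupp.add_apply, Finset.sum_add_distrib]
      congr 1
      by_cases hh : h = o.1
      · rw [if_pos hh]
        subst hh
        rw [Finset.sum_eq_single o.2]
        · simp
        · intro b _ hb
          rw [Finsupp.single_apply, if_neg]
          intro h5
          apply hb
          rw [h5]
        · simp
      · rw [if_neg hh]
        apply Finset.sum_eq_zero
        intro i _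
        rw [Finsupp.single_apply, if_neg]
        intro h5
        apply hh
        rw [h5]
    show ∑ i, e (h, i) = r' h - (if h = o.1 then s else 0)
    rw [← h3, h4, Nat.add_sub_cancel_left]
  · intro e he
    obtain ⟨h1, h2⟩ := hsup e he
    exact ⟨s, by rw [coeff_ev, if_pos h1, hc1]⟩
  · intro e he
    exact (hsup e he).1
  · intro e he
    rw [PsiA_ev a a' l o ho ha', mem_support_iff, coeff_ev] at he
    split_ifs at he with h0
    · have hX : PsiA a l (monomial (Finsupp.single o s) 1 : MvPolynomial (Fin m × ι) k) =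
          monomial (Finsupp.single o s) 1 := by
        rw [← X_pow_eq_monomial, map_pow]
        congr 1
        unfold PsiA
        rw [aeval_X, if_neg ho]
      have h1 : coeff (Finsupp.single o s + e) (PsiA a l P) = coeff e (PsiA a l P1) := by
        rw [hPP, map_mul, hX, coeff_monomial_mul, one_mul]
      have h2 : Finsupp.single o s + e ∈ (PsiA a l P).support := by
        rw [mem_support_iff, h1]
        exact he
      have h3 := hI _ h2
      refine h3.trans (le_of_eq ?_)
      apply Finset.sum_congr rfl
      intro h _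
      have : (Finsupp.single o s + e) (h, l h) = e (h, l h) := by
        rw [Finsupp.add_apply, Finsupp.single_apply, if_neg, zero_add]
        rintro rfl
        exact ho rfl
      rw [this]
    · exact absurd rfl he

theorem multi {m : ℕ} {ι : Type} [Fintype ι] [DecidableEq ι] (r : Fin m → ℕ)
    (P : MvPolynomial (Fin m × ι) k) (a : Fin m → ι → k) (l : Fin m → ι) (θ : ℝ)
    (hP : P ≠ 0) (hM : MHr r P) (hI : IndA r a l θ P) (S : Finset (Fin m × ι))
    (hS : ∀ p ∈ S, p.2 ≠ l p.1) :
    ∃ (r' : Fin m → ℕ) (P' : MvPolynomial (Fin m × ι) k), (∀ h, r' h ≤ r h) ∧ P' ≠ 0 ∧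
      MHr r' P' ∧
      (∀ e ∈ P'.support, ∃ e', coeff e P' = coeff e' P) ∧
      (∀ e ∈ P'.support, ∀ p ∈ S, e p = 0) ∧
      IndA r (fun h i => if (h, i) ∈ S then 0 else a h i) l θ P' := by
  classical
  induction S using Finset.induction_on with
  | empty =>
    refine ⟨r, P, fun h => le_rfl, hP, hM, fun e _ => ⟨e, rfl⟩, fun e _ p hp => ?_, ?_⟩
    · simp at hp
    · simpa using hI
  | insert o S hoS ih =>
    obtain ⟨r1, P1, h1, h2, h3, h4, h5, h6⟩ := ih (fun p hp => hS p (Finset.mem_insert_of_mem hp))
    obtain ⟨r2, P2, g1, g2, g3, g4, g5, g6⟩ := step r r1 P1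
      (fun h i => if (h, i) ∈ S then 0 else a h i)
      (fun h i => if (h, i) ∈ insert o S then 0 else a h i) l θ o
      (hS o (Finset.mem_insert_self _ _))
      (by
        intro h i
        simp only [Finset.mem_insert]
        by_cases hc : (h, i) = o
        · simp [hc]
        · simp [hc]) h2 h3 h6
    have hmem : ∀ e ∈ P2.support, ∃ s : ℕ, coeff e P2 = coeff (Finsupp.single o s + e) P1 ∧
        Finsupp.single o s + e ∈ P1.support := by
      intro e he
      obtain ⟨s, hs⟩ := g4 e he
      refine ⟨s, hs, ?_⟩
      rw [mem_support_iff, ← hs]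
      exact mem_support_iff.mp he
    refine ⟨r2, P2, fun h => (g1 h).trans (h1 h), g2, g3, ?_, ?_, g6⟩
    · intro e he
      obtain ⟨s, hs, hs'⟩ := hmem e he
      obtain ⟨e', he'⟩ := h4 _ hs'
      exact ⟨e', by rw [hs, he']⟩
    · intro e he p hp
      rcases Finset.mem_insert.mp hp with rfl | hp
      · exact g5 e he
      · obtain ⟨s, hs, hs'⟩ := hmem e he
        have := h5 _ hs' p hp
        rw [Finsupp.add_apply] at this
        omega

theorem red2 : Red2 := by
  intro k _ m ι _ _ r P a l1 l2 θ hP hM ha hI
  classical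
  obtain ⟨r', P', h1, h2, h3, h4, h5, h6⟩ := multi r P a l1 θ hP hM hI
    (Finset.univ.filter (fun p : Fin m × ι => p.2 ≠ l1 p.1 ∧ p.2 ≠ l2 p.1))
    (fun p hp => (Finset.mem_filter.mp hp).2.1)
  refine ⟨r', P', h1, h2, h3, h4, ?_, ?_⟩
  · intro e he h i hi1 hi2
    exact h5 e he (h, i) (Finset.mem_filter.mpr ⟨Finset.mem_univ _, hi1, hi2⟩)
  · have : (fun h i => if (h, i) ∈ (Finset.univ.filter
        (fun p : Fin m × ι => p.2 ≠ l1 p.1 ∧ p.2 ≠ l2 p.1)) then 0 else a h i) =
        (fun h i => if i = l1 h ∨ i = l2 h then a h i else 0) := by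
      funext h i
      simp only [Finset.mem_filter, Finset.mem_univ, true_and]
      by_cases c1 : i = l1 h
      · simp [c1]
      · by_cases c2 : i = l2 h
        · simp [c2]
        · simp [c1, c2]
    rw [this] at h6
    exact h6

end Pool.Agent.Helper64.Ru
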